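import Pool.Agent.X302.TR.Main3
import Pool.Agent.X148.TRH.Hull
import Pool.Agent.X288.TR.COND2
import Pool.Agent.X168.TR.Near
import Pool.Agent.X154.TR.POS
import Pool.Agent.X191.TR.FLAG
import Pool.Agent.X181.TR.SGN
import Pool.Agent.X61.TR.Chain
import Pool.Agent.X121.TR.Size
import Pool.Agent.X295.TR.POLY
import Pool.Agent.X123.TR.SCALE
import Pool.Agent.X219.TR.ELL
import Pool.Agent.X9.TR.Step
import Pool.Agent.X97.TR.KRON

/-!
# Unbounded integer cubic minimization and thin rays, in every dimension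

Let `P = {x : A x ≤ b}` be a rational polyhedron in `ℝⁿ` and let `f` be a real polynomial of degree at
most three. Then `f` is unbounded below on `P ∩ ℤⁿ` exactly when `P` has an unbounded thin ray for
`f`: there are `y ∈ P` and `d ≠ 0` in the recession cone such that for every `ε > 0` the function `f` is
unbounded below on the integer points of `P` within the distance `ε` of the ray `{y + s d : s ≥ 0}`.

Proof. Suppose that no thin ray is unbounded. Write `f(x) = T(x,x,x) + Q(x,x) + L(x) + c`. Kronecker's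
theorem gives for every `e ≠ 0` in the recession cone `C` and every `y` in the closed group generated by
`ℤⁿ` and the line of `e` (for which `y + s e` is in `P` for large `s`): `T(e,e,e) ≥ 0`; if this is `0`,
then `A_e(y) = 3 T(e,e,y) + Q(e,e) ≥ 0`; if this is also `0`, then
`B_e(y) = 3 T(e,y,y) + 2 Q(e,y) + L(e) ≥ 0`. Let `f(x_k) → -∞`. Along an ultrafilter
`x_k = ∑_{i<m} λ_i(k) d_i + y_k` with `λ_i → ∞`, `λ_{i+1} / λ_i → 0`, `y_k` convergent. Put `e_0 = d_0`,
`e_{j+1} = R_j e_j + d_{j+1}` with `R_j` large and generic, and `X_j = λ_j e_j + ∑_{i>j} λ_i d_i + y`. Then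
`X_0 = x`, eventually `f(X_{j+1}) ≤ f(X_j)` or `0 ≤ f(X_j)`, and `f(X_{m-1})` is bounded below, a
contradiction.

Joint work: parts by helpers 9, 61, 97, 121, 123, 148, 154, 168, 181, 191, 219, 288, 295, 302 (and the
discrete Kronecker theorem of the module `Pool.Agent.W654.Kron`).
-/

set_option autoImplicit false

namespace Pool.Agent.Results.MP_0e8110_lc.ThinRays

open Pool.Agent.X302.TR

/-- A real polynomial `f` of degree at most three is unbounded below on the integer points of the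
rational polyhedron `{x : A x ≤ b}` if and only if the polyhedron has an unbounded thin ray for `f`. -/
theorem result {n p : ℕ} (A : Matrix (Fin p) (Fin n) ℚ) (b : Fin p → ℚ)
    (f : MvPolynomial (Fin n) ℝ) (hf : f.totalDegree ≤ 3) :
    (∀ M : ℝ, ∃ x : Fin n → ℤ, (∀ i, ∑ j, (A i j : ℝ) * (x j : ℝ) ≤ (b i : ℝ)) ∧
      MvPolynomial.eval (fun j => (x j : ℝ)) f < M) ↔
    ∃ y d : Fin n → ℝ, d ≠ 0 ∧ (∀ i, ∑ j, (A i j : ℝ) * y j ≤ (b i : ℝ)) ∧
      (∀ i, ∑ j, (A i j : ℝ) * d j ≤ 0) ∧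
      ∀ ε : ℝ, 0 < ε → ∀ M : ℝ, ∃ x : Fin n → ℤ,
        (∀ i, ∑ j, (A i j : ℝ) * (x j : ℝ) ≤ (b i : ℝ)) ∧
        (∃ s : ℝ, 0 ≤ s ∧ ∑ j, ((x j : ℝ) - (y j + s * d j)) ^ 2 ≤ ε ^ 2) ∧
        MvPolynomial.eval (fun j => (x j : ℝ)) f < M := by
  constructor
  · intro h
    obtain ⟨a, b', hP, hR⟩ := Pool.Agent.X123.TR.t_SCALE n p A b
    obtain ⟨F, hF⟩ := Pool.Agent.X295.TR.t_POLY n f hf
    by_contra hcon
    have hN : NoRay a b' F := by
      intro y d hd hy hdR
      by_contra hB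
      refine hcon ⟨y, d, hd, (hP y).1 hy, (hR d).1 hdR, fun ε hε M => ?_⟩
      have hn : (0 : ℝ) < n + 1 := by positivity
      have hB' : ¬ ∀ x : Fin n → ℤ, Pt a b' (toV x) →
          (∃ s : ℝ, 0 ≤ s ∧ ‖toV x - (y + s • d)‖ ≤ ε / (n + 1)) → M ≤ F.val (toV x) :=
        fun h' => hB ⟨ε / (n + 1), div_pos hε hn, M, h'⟩
      push Not at hB'
      obtain ⟨x, hx, ⟨s, hs, hxs⟩, hlt⟩ := hB'
      refine ⟨x, (hP _).1 hx, ⟨s, hs, ?_⟩, ?_⟩
      · have h1 : ∀ j, ((x j : ℝ) - (y j + s * d j)) ^ 2 ≤ (ε / (n + 1)) ^ 2 := by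
          intro j
          have h2 := (norm_le_pi_norm (toV x - (y + s • d)) j).trans hxs
          rw [Real.norm_eq_abs] at h2
          have h3 : (toV x - (y + s • d)) j = (x j : ℝ) - (y j + s * d j) := rfl
          rw [h3] at h2
          rw [← sq_abs]
          exact pow_le_pow_left₀ (abs_nonneg _) h2 2
        calc ∑ j, ((x j : ℝ) - (y j + s * d j)) ^ 2 ≤ ∑ _j : Fin n, (ε / (n + 1)) ^ 2 :=
              Finset.sum_le_sum fun j _ => h1 j
          _ = n * (ε / (n + 1)) ^ 2 := by simp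
          _ ≤ ε ^ 2 := by
              rw [div_pow, ← mul_div_assoc, div_le_iff₀ (by positivity)]
              have h4 : (n : ℝ) ≤ (n + 1) ^ 2 := by nlinarith [(Nat.cast_nonneg n : (0 : ℝ) ≤ n)]
              nlinarith [sq_nonneg ε]
      · rw [← hF]
        exact hlt
    have hc : Cond a b' F := fun e y he hRc hG hCm =>
      Pool.Agent.X288.TR.t_COND Pool.Agent.X168.TR.t_NEAR Pool.Agent.X97.TR.t_KRON
        Pool.Agent.X148.TRH.t_HULL n p a b' F hN e y he hRc hG hCm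
    obtain ⟨M, hM⟩ := bounded Pool.Agent.X148.TRH.t_HULL Pool.Agent.X219.TR.t_ELL
      Pool.Agent.X9.TR.t_STEP Pool.Agent.X9.TR.t_STEP0 Pool.Agent.X154.TR.t_POS
      Pool.Agent.X154.TR.t_LAST Pool.Agent.X191.TR.t_FLAG Pool.Agent.X181.TR.t_SGN
      Pool.Agent.X121.TR.t_SIZE Pool.Agent.X61.TR.t_CHAIN hc
    obtain ⟨x, hx, hlt⟩ := h M
    have h1 := hM x ((hP _).2 hx)
    rw [hF] at h1
    exact absurd hlt (not_lt.2 h1)
  · rintro ⟨y, d, -, -, -, h⟩ M
    obtain ⟨x, hx, -, hlt⟩ := h 1 one_pos M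
    exact ⟨x, hx, hlt⟩

end Pool.Agent.Results.MP_0e8110_lc.ThinRays
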